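import Mathlib
import Pool.Agent.Helper92.Ru.GoalsW

/-! Packet WMain (W7) for MP_d1d051_nt: `SubAdd → ExtractS → Proc → WMain`. -/

set_option autoImplicit false

open MvPolynomial

namespace Pool.Agent.Helper45.Ru

open Pool.Agent.Helper92.Ru

theorem wMain (hS : SubAdd) (hE : ExtractS) (hP : Proc) : WMain := by
  intro k _ _ d n q a hd hn hGP L s lam hcard hL hsum
  have hM : 1 ≤ d * n := Nat.mul_pos hd hn
  refine ⟨(8 * (d * n) * L + 2) * q + q, ?_⟩
  intro m hm V _ _ φ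
  have hqm : q ≤ m := le_trans (Nat.le_add_left _ _) hm
  have hm2 : (8 * (d * n) * L + 2) * q ≤ m := le_trans (Nat.le_add_right _ _) hm
  set D : ℕ := Module.finrank k ((Rm k d n m).map φ) with hD
  have key := hP q (d * n) L s lam (((m - q : ℕ) : ℝ) * (D : ℝ))
    (fun z => (Ssum d a φ z m : ℝ)) hM (by positivity) (fun z => by positivity)
    (by
      have : Ssum d a φ (0 : Fin q → ℕ) m = 0 := by
        unfold Ssum
        simp
      simp only [this, Nat.cast_zero])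
    (by
      intro x y
      have := hS k d n q a V φ x y m
      show ((Ssum d a φ (fun i => x i + y i) m : ℕ) : ℝ) ≤
        ((Ssum d a φ x m : ℕ) : ℝ) + ((Ssum d a φ y m : ℕ) : ℝ)
      exact_mod_cast this)
    (by
      intro z β hβ
      have := hE k d n q a hd hGP V φ z β m hqm hβ
      show (β : ℝ) * (((m - q : ℕ) : ℝ) * (D : ℝ)) +
        ((Ssum d a φ (fun i => z i - β) m : ℕ) : ℝ) ≤ ((Ssum d a φ z m : ℕ) : ℝ)
      have h2 : ((β * (m - q) * D + Ssum d a φ (fun i => z i - β) m : ℕ) : ℝ) ≤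
          ((Ssum d a φ z m : ℕ) : ℝ) := by exact_mod_cast this
      rw [Nat.cast_add, Nat.cast_mul, Nat.cast_mul] at h2
      linarith)
    hcard hL hsum
  have hMR : (1 : ℝ) ≤ ((d * n : ℕ) : ℝ) := by exact_mod_cast hM
  have hMpos : (0 : ℝ) < ((d * n : ℕ) : ℝ) := by linarith
  set MR : ℝ := ((d * n : ℕ) : ℝ) with hMRdef
  have hmq : ((m - q : ℕ) : ℝ) = (m : ℝ) - (q : ℝ) := by
    rw [Nat.cast_sub hqm]
  have hm2R : (8 * MR * (L : ℝ) + 2) * (q : ℝ) ≤ (m : ℝ) := by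
    have : (((8 * (d * n) * L + 2) * q : ℕ) : ℝ) ≤ ((m : ℕ) : ℝ) := by exact_mod_cast hm2
    rw [Nat.cast_mul, Nat.cast_add, Nat.cast_mul, Nat.cast_mul 8 (d * n)] at this
    simpa only [Nat.cast_ofNat] using this
  have hDnn : (0 : ℝ) ≤ (D : ℝ) := by positivity
  have key2 : (8 * MR * (L : ℝ) + 2) * (((m : ℝ) - q) * (D : ℝ)) ≤
      8 * MR * ∑ v, ((Ssum d a φ (lam v) m : ℕ) : ℝ) := by
    have h8 : (0 : ℝ) ≤ 8 * MR := by positivity
    have := mul_le_mul_of_nonneg_left key h8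
    rw [hmq] at this
    have e : 8 * MR * (((L : ℝ) + 1 / (4 * MR)) * (((m : ℝ) - q) * (D : ℝ))) =
        (8 * MR * (L : ℝ) + 2) * (((m : ℝ) - q) * (D : ℝ)) := by
      field_simp
      ring
    rw [← e]
    exact this
  have key3 : (8 * MR * (L : ℝ) + 1) * (m : ℝ) * (D : ℝ) ≤
      (8 * MR * (L : ℝ) + 2) * (((m : ℝ) - q) * (D : ℝ)) := by
    have : (8 * MR * (L : ℝ) + 1) * (m : ℝ) ≤ (8 * MR * (L : ℝ) + 2) * ((m : ℝ) - q) := by
      nlinarith
    calc (8 * MR * (L : ℝ) + 1) * (m : ℝ) * (D : ℝ)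
        ≤ ((8 * MR * (L : ℝ) + 2) * ((m : ℝ) - q)) * (D : ℝ) :=
          mul_le_mul_of_nonneg_right this hDnn
      _ = _ := by ring
  have fin : (((8 * (d * n) * L + 1) * m * D : ℕ) : ℝ) ≤
      ((8 * (d * n) * ∑ v, Ssum d a φ (lam v) m : ℕ) : ℝ) := by
    have l : (((8 * (d * n) * L + 1) * m * D : ℕ) : ℝ) =
        (8 * MR * (L : ℝ) + 1) * (m : ℝ) * (D : ℝ) := by
      rw [Nat.cast_mul, Nat.cast_mul, Nat.cast_add, Nat.cast_mul, Nat.cast_mul 8 (d * n),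
        Nat.cast_one, Nat.cast_ofNat]
    have r : ((8 * (d * n) * ∑ v, Ssum d a φ (lam v) m : ℕ) : ℝ) =
        8 * MR * ∑ v, ((Ssum d a φ (lam v) m : ℕ) : ℝ) := by
      rw [Nat.cast_mul, Nat.cast_mul 8 (d * n), Nat.cast_sum, Nat.cast_ofNat]
    rw [l, r]
    exact le_trans key3 key2
  exact_mod_cast fin

end Pool.Agent.Helper45.Ru
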