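import Pool.Agent.Helper92.Ru.GoalsV

/-!
# P3 (PlNorm): the norm formula at finite places
-/

set_option autoImplicit false

open NumberField IsDedekindDomain

namespace Pool.Agent.Helper45.Ru

open Pool.Agent.Helper92.Ru

section one

variable {k : Type} [Field k] [NumberField k]

theorem lt_one_iff (v : FinitePlace k) (y : k) :
    v y < 1 ↔ v.maximalIdeal.valuation k y < 1 := by
  rw [← FinitePlace.norm_embedding_eq v y, FinitePlace.norm_embedding']
  have h := WithZeroMulInt.toNNReal_strictMono
    (NumberField.HeightOneSpectrum.one_lt_absNorm_nnreal v.maximalIdeal)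
  rw [show (1:ℝ) = ((1 : NNReal) : ℝ) from rfl, NNReal.coe_lt_coe]
  rw [← h.lt_iff_lt, map_one]

theorem mem_iff (v : FinitePlace k) (y : 𝓞 k) :
    y ∈ v.maximalIdeal.asIdeal ↔ v (y : k) < 1 := by
  rw [← FinitePlace.norm_embedding_eq v (y : k)]
  exact (FinitePlace.norm_lt_one_iff_mem k v.maximalIdeal y).symm

end one

variable {k : Type} [Field k] [NumberField k] {L : Type} [Field L] [NumberField L] [Algebra k L]

theorem above_iff (v : FinitePlace k) (w : FinitePlace L) :
    Above v w ↔ w.maximalIdeal.asIdeal.LiesOver v.maximalIdeal.asIdeal := by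
  constructor
  · intro h
    refine ⟨?_⟩
    ext x
    rw [Ideal.mem_comap, mem_iff, mem_iff, h (x : k)]
    rfl
  · intro h y
    have h1 := HeightOneSpectrum.valuation_liesOver L v.maximalIdeal w.maximalIdeal y
    rw [lt_one_iff, lt_one_iff, ← h1]
    have h2 : v.maximalIdeal.asIdeal.ramificationIdx' w.maximalIdeal.asIdeal ≠ 0 :=
      Ideal.IsDedekindDomain.ramificationIdx'_ne_zero_of_liesOver w.maximalIdeal.asIdeal
        v.maximalIdeal.ne_bot
    rw [pow_lt_one_iff h2]

/-- `q_v` to the multiplicity -/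
noncomputable def cc (p J : Ideal (𝓞 k)) : ℕ := Ideal.absNorm p ^ multiplicity p J

theorem cc_mul {p J₁ J₂ : Ideal (𝓞 k)} (hp : Prime p) (h1 : J₁ ≠ ⊥) (h2 : J₂ ≠ ⊥) :
    cc p (J₁ * J₂) = cc p J₁ * cc p J₂ := by
  have h3 : J₁ * J₂ ≠ 0 := mul_ne_zero h1 h2
  rw [cc, multiplicity_mul hp (FiniteMultiplicity.of_prime_left hp h3), pow_add]
  rfl

theorem cc_one {p : Ideal (𝓞 k)} (hp : Prime p) : cc p (1 : Ideal (𝓞 k)) = 1 := by
  rw [cc, multiplicity_eq_zero.2, pow_zero]
  intro h
  exact hp.not_isUnit (isUnit_of_dvd_one h)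

theorem cc_prod {p : Ideal (𝓞 k)} (hp : Prime p) {α : Type} (s : Finset α)
    (J : α → Ideal (𝓞 k)) (hJ : ∀ i ∈ s, J i ≠ ⊥) :
    cc p (∏ i ∈ s, J i) = ∏ i ∈ s, cc p (J i) := by
  classical
  induction s using Finset.induction_on with
  | empty => simpa using cc_one hp
  | insert a s ha ih =>
    rw [Finset.prod_insert ha, Finset.prod_insert ha, cc_mul hp (hJ a (Finset.mem_insert_self _ _)),
      ih fun i hi => hJ i (Finset.mem_insert_of_mem hi)]
    have : ∏ i ∈ s, J i ≠ 0 :=
      Finset.prod_ne_zero_iff.2 fun i hi => hJ i (Finset.mem_insert_of_mem hi)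
    exact this

theorem cc_pow {p : Ideal (𝓞 k)} (hp : Prime p) {J : Ideal (𝓞 k)} (hJ : J ≠ ⊥) (m : ℕ) :
    cc p (J ^ m) = cc p J ^ m := by
  rw [cc, FiniteMultiplicity.multiplicity_pow hp (FiniteMultiplicity.of_prime_left hp hJ),
    cc, ← pow_mul, mul_comm]

theorem prime_max (v : FinitePlace k) : Prime v.maximalIdeal.asIdeal := v.maximalIdeal.prime

open Classical in
theorem cc_relNorm_prime (v : FinitePlace k) (w : FinitePlace L) :
    cc v.maximalIdeal.asIdeal (Ideal.relNorm (𝓞 k) w.maximalIdeal.asIdeal) =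
      if Above v w then Ideal.absNorm w.maximalIdeal.asIdeal else 1 := by
  have hmax : w.maximalIdeal.asIdeal.IsMaximal := w.maximalIdeal.isMaximal
  split_ifs with h
  · have hl := (above_iff v w).1 h
    have hpr : v.maximalIdeal.asIdeal.IsPrime := v.maximalIdeal.isPrime
    obtain ⟨s, hs⟩ := Ideal.exists_relNorm_eq_pow_of_isPrime w.maximalIdeal.asIdeal
      v.maximalIdeal.asIdeal
    rw [hs, cc, multiplicity_pow_self_of_prime (prime_max v), ← map_pow, ← hs,
      Ideal.absNorm_relNorm]
  · -- the prime below is different from `p`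
    set P := w.maximalIdeal.asIdeal with hP
    set p' : Ideal (𝓞 k) := P.under (𝓞 k) with hp'
    have hpr : p'.IsPrime := inferInstance
    have hl : P.LiesOver p' := inferInstance
    obtain ⟨s, hs⟩ := Ideal.exists_relNorm_eq_pow_of_isPrime P p'
    have hne : p' ≠ ⊥ := by
      intro h0
      rw [hp'] at h0
      exact w.maximalIdeal.ne_bot (Ideal.eq_bot_of_comap_eq_bot h0)
    have hpm : p'.IsMaximal := hpr.isMaximal hne
    rw [hs, cc, multiplicity_eq_zero.2, pow_zero]
    intro hd
    have h1 := (prime_max v).dvd_of_dvd_pow hd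
    have h2 : p' ≤ v.maximalIdeal.asIdeal := Ideal.dvd_iff_le.1 h1
    have h3 : p' = v.maximalIdeal.asIdeal := hpm.eq_of_le v.maximalIdeal.isPrime.ne_top h2
    apply h
    rw [above_iff, ← h3]
    exact hl

open Classical in
theorem cc_relNorm (v : FinitePlace k) (I : Ideal (𝓞 L)) (hI : I ≠ ⊥) :
    cc v.maximalIdeal.asIdeal (Ideal.relNorm (𝓞 k) I) =
      ∏ᶠ w : FinitePlace L, if Above v w then
        Ideal.absNorm w.maximalIdeal.asIdeal ^ multiplicity w.maximalIdeal.asIdeal I else 1 := by
  have hfin := FinitePlace.hasFiniteMulSupport_fun_pow_multiplicity (K := L) hI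
    (fun J : Ideal (𝓞 L) => J)
  have hfac := FinitePlace.finprod_finitePlace_pow_multiplicity hI
  set s := hfin.toFinset with hs
  rw [finprod_eq_prod_of_mulSupport_subset (s := s) _ (by rw [hs]; simp)] at hfac
  rw [finprod_eq_prod_of_mulSupport_subset (s := s)]
  · conv_lhs => rw [← hfac, map_prod]
    rw [cc_prod (prime_max v)]
    · refine Finset.prod_congr rfl fun w _ => ?_
      rw [map_pow, cc_pow (prime_max v), cc_relNorm_prime]
      · split_ifs
        · rfl
        · rw [one_pow]
      · rw [Ne, Ideal.relNorm_eq_bot_iff]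
        exact w.maximalIdeal.ne_bot
    · intro w _
      rw [map_pow]
      refine pow_ne_zero _ ?_
      rw [Ideal.zero_eq_bot, Ne, Ideal.relNorm_eq_bot_iff]
      exact w.maximalIdeal.ne_bot
  · intro w hw
    rw [hs, Set.Finite.coe_toFinset]
    rw [Function.mem_mulSupport] at hw ⊢
    intro h0
    apply hw
    split_ifs
    · rw [← map_pow, h0, map_one]
    · rfl

theorem prod_mul (v : FinitePlace k) {a b : L} (ha : a ≠ 0) (hb : b ≠ 0) :
    ∏ᶠ (w : FinitePlace L) (_ : Above v w), w (a * b) =
      (∏ᶠ (w : FinitePlace L) (_ : Above v w), w a) *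
        ∏ᶠ (w : FinitePlace L) (_ : Above v w), w b := by
  classical
  simp only [finprod_eq_if]
  rw [← finprod_mul_distrib]
  · refine finprod_congr fun w => ?_
    split_ifs
    · exact map_mul w a b
    · rw [one_mul]
  · refine (FinitePlace.hasFiniteMulSupport ha).subset ?_
    intro w hw h0
    apply hw
    simp only
    split_ifs
    · exact h0
    · rfl
  · refine (FinitePlace.hasFiniteMulSupport hb).subset ?_
    intro w hw h0
    apply hw
    simp only
    split_ifs
    · exact h0
    · rfl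

theorem norm_int (v : FinitePlace k) (b : 𝓞 L) (hb : b ≠ 0) :
    v (Algebra.norm k (b : L)) = ∏ᶠ (w : FinitePlace L) (_ : Above v w), w (b : L) := by
  classical
  have hI : Ideal.span {b} ≠ ⊥ := by
    rw [Ne, Ideal.span_singleton_eq_bot]
    exact hb
  set N : 𝓞 k := Algebra.intNorm (𝓞 k) (𝓞 L) b with hN
  have hNn : (N : k) = Algebra.norm k (b : L) :=
    Algebra.algebraMap_intNorm (A := 𝓞 k) (K := k) (L := L) (B := 𝓞 L) b
  have hN0 : N ≠ 0 := by
    intro h0
    have : Algebra.norm k (b : L) = 0 := by rw [← hNn, h0]; simp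
    rw [Algebra.norm_eq_zero_iff] at this
    exact hb (by exact_mod_cast this)
  have h1 := cc_relNorm v (Ideal.span {b}) hI
  rw [Ideal.relNorm_singleton, ← hN] at h1
  have h2 := FinitePlace.apply_mul_absNorm_pow_eq_one v hN0
  have h3 : ∀ w : FinitePlace L, _ := fun w => FinitePlace.apply_mul_absNorm_pow_eq_one w hb
  rw [← hNn]
  have h4 : (v (N : k)) * (cc v.maximalIdeal.asIdeal (Ideal.span {N}) : ℝ) = 1 := by
    rw [cc]
    push_cast
    exact h2
  have hfin : (fun w : FinitePlace L => w (b : L)).HasFiniteMulSupport :=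
    FinitePlace.hasFiniteMulSupport_int hb
  set s := hfin.toFinset with hs
  simp only [finprod_eq_if]
  rw [finprod_eq_prod_of_mulSupport_subset (s := s)]
  · rw [finprod_eq_prod_of_mulSupport_subset (s := s)] at h1
    · rw [h1] at h4
      push_cast at h4
      have h5 : (∏ w ∈ s, if Above v w then w (b : L) else 1) *
          (∏ w ∈ s, if Above v w then ((Ideal.absNorm w.maximalIdeal.asIdeal : ℝ) ^
            multiplicity w.maximalIdeal.asIdeal (Ideal.span {b})) else 1) = 1 := by
        rw [← Finset.prod_mul_distrib]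
        refine Finset.prod_eq_one fun w _ => ?_
        split_ifs
        · exact h3 w
        · rw [one_mul]
      have h6 : (∏ w ∈ s, if Above v w then ((Ideal.absNorm w.maximalIdeal.asIdeal : ℝ) ^
            multiplicity w.maximalIdeal.asIdeal (Ideal.span {b})) else 1) ≠ 0 :=
        right_ne_zero_of_mul_eq_one h5
      exact mul_right_cancel₀ h6 (h4.trans h5.symm)
    · intro w hw
      rw [hs, Set.Finite.coe_toFinset]
      rw [Function.mem_mulSupport] at hw ⊢
      intro h0
      apply hw
      split_ifs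
      · have := h3 w
        rw [h0, one_mul] at this
        exact_mod_cast this
      · rfl
  · intro w hw
    rw [hs, Set.Finite.coe_toFinset]
    rw [Function.mem_mulSupport] at hw ⊢
    intro h0
    apply hw
    split_ifs
    · exact h0
    · rfl

theorem plNorm : PlNorm := by
  intro k _ _ L _ _ _ v y hy
  obtain ⟨a, b, hb, rfl⟩ := IsFractionRing.div_surjective (A := 𝓞 L) y
  have hb0 : b ≠ 0 := nonZeroDivisors.ne_zero hb
  have hbL : (b : L) ≠ 0 := by exact_mod_cast hb0
  have ha0 : a ≠ 0 := by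
    rintro rfl
    simp at hy
  have h1 := norm_int v a ha0
  have h2 := norm_int v b hb0
  have h3 : v (Algebra.norm k ((a : L) / (b : L))) * v (Algebra.norm k (b : L)) =
      v (Algebra.norm k (a : L)) := by
    rw [← map_mul, ← map_mul, div_mul_cancel₀ _ hbL]
  have h4 := prod_mul v hy hbL
  change ∏ᶠ (w : FinitePlace L) (_ : Above v w), w ((a : L) / (b : L) * (b : L)) = _ at h4
  rw [div_mul_cancel₀ _ hbL] at h4
  have h5 : v (Algebra.norm k (b : L)) ≠ 0 := by
    refine (FinitePlace.pos_iff.2 ?_).ne'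
    rw [Ne, Algebra.norm_eq_zero_iff]
    exact hbL
  have h6 : v (Algebra.norm k ((a : L) / (b : L))) * v (Algebra.norm k (b : L)) =
      (∏ᶠ (w : FinitePlace L) (_ : Above v w), w ((a : L) / (b : L))) *
        v (Algebra.norm k (b : L)) := by
    rw [h3, h1, h4, h2]
  exact mul_right_cancel₀ h5 h6

end Pool.Agent.Helper45.Ru
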